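import Pool.Agent.K1H2.UB.Stm3

/-! Piece LNK of the project UB (helper2): the two descriptions of the process give the same law. -/

set_option autoImplicit false

open scoped ENNReal
open MeasureTheory ProbabilityTheory Filter
open Pool.Agent.K1H53.BI (V St children Ex Phi prob CondH top C_ABEL step run lau ind Fin' Ex_pure)
open Pool.Agent.K1H2.BI (State Inst Dir arrive kids at' agg Crit Drawn event Inv X frz)
open Pool.Agent.K1H2.UB

namespace Pool.Agent.K1H24.UB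

universe u

theorem law_eq_run (κ : St → PMF St) (T n : ℕ) :
    Pool.Agent.K1H53.BI.law κ T n = run κ ⟨{0}, [], T - 1⟩ n := by
  induction n with
  | zero => rfl
  | succ n ih =>
    change (Pool.Agent.K1H53.BI.law κ T n).bind κ = (run κ ⟨{0}, [], T - 1⟩ n).bind κ
    rw [ih]

theorem prob_eq (ν : PMF ℕ) (T : ℕ) (G : Finset V → Prop) :
    prob ν T G = Phi ν G ⟨{0}, [], T - 1⟩ := by
  unfold Pool.Agent.K1H53.BI.prob Pool.Agent.K1H53.BI.Phi
  simp_rw [law_eq_run]

theorem Phi_ge (ν : PMF ℕ) (G : Finset V → Prop) (A : Finset V) (h : G A) :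
    1 ≤ Phi ν G ⟨A, [], 0⟩ := by
  unfold Pool.Agent.K1H53.BI.Phi
  refine le_iSup_of_le 0 ?_
  change 1 ≤ Ex (PMF.pure _) _
  rw [Ex_pure]
  unfold Pool.Agent.K1H53.BI.ind
  rw [if_pos ⟨⟨rfl, rfl⟩, h⟩]

theorem start_le (hA : C_ABEL) (ν : PMF ℕ) (G : Finset V → Prop) {T : ℕ} (hT : 1 ≤ T) :
    Phi ν G (toSt T ⟨{0}, [0], 1⟩) = prob ν T G := by
  rw [prob_eq]
  unfold toSt
  by_cases h : 1 < T
  · rw [if_pos h, (hA ν G).2.2 ⟨{0}, [], T - 1⟩ (by show 0 < T - 1; omega)]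
    rfl
  · have hT1 : T = 1 := by omega
    subst hT1
    rfl

/-- the stopped process is eventually at the aggregate -/
theorem frz_eq (hTr : Pool.Agent.K1H2.BI.S_TRAJ) (hF : Pool.Agent.K1H2.BI.S_FRZ)
    (ins : ℕ → Inst) {T : ℕ} (hT : 1 ≤ T) (n : ℕ) (hn : (X ins n).t = T) {k : ℕ}
    (hk : Pool.Agent.K1H2.BI.T ins T ≤ k) :
    toSt T (frz {s : State | T ≤ s.t} ins 0 k).1 = ⟨agg ins T, [], 0⟩ := by
  obtain ⟨-, h2, -, -, h5⟩ := (hTr ins).2.2.2.2 T n hT hn.ge
  obtain ⟨j, hj, e1, e2, e3⟩ := hF {s : State | T ≤ s.t} ins 0 k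
  simp only [Nat.zero_add] at e1 e2 e3
  have hj0 : j = Pool.Agent.K1H2.BI.T ins T := by
    rcases lt_trichotomy j (Pool.Agent.K1H2.BI.T ins T) with h | h | h
    · have g1 : T ≤ (X ins j).t := e2 (by omega)
      have g2 := h5 j h
      omega
    · exact h
    · exact absurd (show X ins (Pool.Agent.K1H2.BI.T ins T) ∈ {s : State | T ≤ s.t} from h2.ge)
        (e3 _ h)
  rw [e1, hj0]
  unfold toSt
  rw [if_neg (by rw [h2]; exact lt_irrefl _)]
  rfl

theorem t_LNK : S_LNK.{u} := by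
  intro hH hA hL hTr hF hM hI Ω _ P _ ν ins hc hd T G hT
  obtain ⟨Fr, hFr⟩ : ∃ Fr : Set State, Fr = {s : State | T ≤ s.t} := ⟨_, rfl⟩
  have h1 : ∀ k : ℕ, ∫⁻ ω, Phi ν G (toSt T (frz Fr (at' ins ω) 0 k).1) ∂P ≤ prob ν T G := by
    intro k
    have h := hL Ω P ν ins hd Fr 0 Set.univ MeasurableSet.univ
      (fun _ q => Phi ν G (toSt T q.1)) 0 (fun _ s _ hs hsF => by
        rw [add_zero]
        refine hH ν G T s hs ?_
        rw [hFr] at hsF
        exact not_le.1 hsF) k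
    rw [mul_zero, add_zero, Measure.restrict_univ] at h
    refine h.trans (le_of_eq ?_)
    have e : ∀ ω : Ω, Phi ν G (toSt T (X (at' ins ω) 0)) = prob ν T G := fun ω =>
      start_le hA ν G hT
    calc ∫⁻ ω, Phi ν G (toSt T (X (at' ins ω) 0)) ∂P = ∫⁻ _, prob ν T G ∂P :=
          lintegral_congr e
      _ = prob ν T G := by rw [lintegral_const, measure_univ, mul_one]
  obtain ⟨-, -, hM3⟩ := hM
  obtain ⟨-, m2, -, m4⟩ := hM3 Ω P ν ins hd
  have hmeas : ∀ k : ℕ, Measurable fun ω => Phi ν G (toSt T (frz Fr (at' ins ω) 0 k).1) := by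
    intro k
    have g1 : Measurable fun ω => frz Fr (at' ins ω) 0 k := (m4 Fr 0 k).mono (m2 _) le_rfl
    have g2 : Measurable fun s : State => Phi ν G (toSt T s) := measurable_from_top
    exact g2.comp g1.fst
  have h2 : ∫⁻ ω, liminf (fun k => Phi ν G (toSt T (frz Fr (at' ins ω) 0 k).1)) atTop ∂P ≤
      prob ν T G := by
    refine (lintegral_liminf_le hmeas).trans ?_
    exact (liminf_le_liminf (Eventually.of_forall h1)).trans (liminf_const _).le
  refine le_trans ?_ h2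
  have h3 := mul_meas_ge_le_lintegral (μ := P) (Measurable.liminf hmeas) 1
  rw [one_mul] at h3
  refine le_trans (measure_mono_ae ?_) h3
  filter_upwards [(hI Ω P ν ins hc hd).1] with ω hω hG
  obtain ⟨n, hn⟩ := hω T hT
  change 1 ≤ liminf (fun k => Phi ν G (toSt T (frz Fr (at' ins ω) 0 k).1)) atTop
  refine le_liminf_of_le (by isBoundedDefault) ?_
  filter_upwards [eventually_ge_atTop (Pool.Agent.K1H2.BI.T (at' ins ω) T)] with k hk
  rw [hFr, frz_eq hTr hF (at' ins ω) hT n hn hk]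
  exact Phi_ge ν G _ hG

end Pool.Agent.K1H24.UB
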